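import Pool.Agent.R499.HT.Stm

/-!
# HT-HLOW: the heat property forces `d` to be large on average on cosets of finite subgroups
-/

set_option autoImplicit false

namespace Pool.Agent.R371.HT

open Pool.Agent.R499.HT

open scoped ComplexConjugate

theorem hlow (hBS : S_BS) (hN : S_NLOW) (hB : S_BENT) : S_HLOW := by
  classical
  intro G _ d hH t ht
  obtain ⟨M, hM1, hM2⟩ := hH t ht
  obtain ⟨C0, hC0, hC⟩ := hBS G d t M hM1 hM2
  refine ⟨Real.log (2 * C0), fun K ε hP x => ?_⟩
  have hKpos : (0 : ℝ) < K.card := by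
    have : 0 < K.card := Finset.card_pos.2 ⟨1, hP.one⟩
    exact_mod_cast this
  -- one sign
  have hsgn : ∀ s : ℝ, (s = 1 ∨ s = -1) →
      ∑ v ∈ K.filter (fun v => ε v = s), Real.exp (-(t * d (v * x))) ≤
        C0 * Real.sqrt K.card := by
    intro s hs
    have h1 := hN G K hP.one hP.mul hP.inv (K.filter (fun v => ε v = s))
      (Finset.filter_subset _ _) (fun v => Real.exp (-(t * d (v * x))))
      (fun _ => (Real.exp_pos _).le) x
    have h2 := hC (K.map (mulRightEmbedding x))
      ((K.filter (fun v => ε v = s)).map (mulRightEmbedding x))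
      (fun g => ((ε (g * x⁻¹) : ℝ) : ℂ)) (Finset.map_subset_map.2 (Finset.filter_subset _ _))
    rw [Finset.sum_map, Finset.sum_map] at h2
    simp only [mulRightEmbedding_apply, mul_inv_cancel_right] at h2
    have h3 := hB G K ε hP x
    have h4 : ‖∑ v ∈ K.filter (fun v => ε v = s),
        (((Real.exp (-(t * d (v * x))) : ℝ) : ℂ) * ((ε v : ℝ) : ℂ)) • lam (v * x)‖ =
        ‖∑ v ∈ K.filter (fun v => ε v = s),
          ((Real.exp (-(t * d (v * x))) : ℝ) : ℂ) • lam (v * x)‖ := by
      have h5 : ∑ v ∈ K.filter (fun v => ε v = s),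
          (((Real.exp (-(t * d (v * x))) : ℝ) : ℂ) * ((ε v : ℝ) : ℂ)) • lam (v * x) =
          (s : ℂ) • ∑ v ∈ K.filter (fun v => ε v = s),
            ((Real.exp (-(t * d (v * x))) : ℝ) : ℂ) • lam (v * x) := by
        rw [Finset.smul_sum]
        refine Finset.sum_congr rfl fun v hv => ?_
        rw [(Finset.mem_filter.1 hv).2, smul_smul, mul_comm]
      rw [h5, norm_smul]
      rcases hs with rfl | rfl <;> simp
    rw [h4] at h2
    calc _ ≤ _ := h1
      _ ≤ _ := h2
      _ ≤ C0 * Real.sqrt K.card := mul_le_mul_of_nonneg_left h3 hC0.le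
  have hsum : ∑ v ∈ K, Real.exp (-(t * d (v * x))) ≤ 2 * C0 * Real.sqrt K.card := by
    rw [← Finset.sum_filter_add_sum_filter_not K (fun v => ε v = 1)]
    have h1 := hsgn 1 (Or.inl rfl)
    have h2 := hsgn (-1) (Or.inr rfl)
    have h3 : K.filter (fun v => ¬ ε v = 1) = K.filter (fun v => ε v = -1) := by
      refine Finset.filter_congr fun v hv => ?_
      constructor
      · intro h
        exact (hP.sgn v hv).resolve_left h
      · intro h h'
        rw [h] at h'
        norm_num at h'
    rw [h3]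
    linarith
  -- Jensen
  set A : ℝ := (∑ v ∈ K, d (v * x)) / K.card with hA
  have hJ : Real.exp (-(t * A)) ≤ (∑ v ∈ K, Real.exp (-(t * d (v * x)))) / K.card := by
    have h1 := convexOn_exp.map_sum_le (t := K) (w := fun _ => (K.card : ℝ)⁻¹)
      (p := fun v => -(t * d (v * x))) (fun _ _ => by positivity)
      (by rw [Finset.sum_const, nsmul_eq_mul, mul_inv_cancel₀ hKpos.ne'])
      (fun _ _ => Set.mem_univ _)
    simp only [smul_eq_mul] at h1
    rw [← Finset.mul_sum, ← Finset.mul_sum, Finset.sum_neg_distrib, ← Finset.mul_sum] at h1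
    have h2 : (K.card : ℝ)⁻¹ * -(t * ∑ v ∈ K, d (v * x)) = -(t * A) := by
      rw [hA]
      field_simp
    rw [h2] at h1
    rw [div_eq_inv_mul]
    exact h1
  have hfin : Real.exp (-(t * A)) ≤ 2 * C0 * Real.sqrt K.card / K.card :=
    hJ.trans (div_le_div_of_nonneg_right hsum hKpos.le)
  have hlog := Real.log_le_log (Real.exp_pos _) hfin
  rw [Real.log_exp, Real.log_div (by positivity) hKpos.ne',
    Real.log_mul (by positivity) (by positivity), Real.log_sqrt hKpos.le] at hlog
  rw [div_le_iff₀ ht]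
  linarith

end Pool.Agent.R371.HT
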